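import Pool.Agent.TH864.DP.Main
import Pool.Agent.TH978.S13.Anti

/-! Anticanonical degrees: nearly equal multiplicities in several blocks. -/

set_option autoImplicit false

namespace Pool.Agent.TH864.DP

open Finset Pool.Agent.TH176.Nag Pool.Agent.TH603.Sur Pool.Agent.TH603.Cut Pool.Agent.H932R3
open Pool.Agent.TH864.SX (Fb Fa Slp Blk)
open Pool.Agent.TH469.SX (Bo Fl)
open Pool.Agent.TH978.S13 (Sc Emp_shift Sur_shift Emp_add Sur_add Emp_units Sur_units Emp_plane9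
  Sur_plane9 Emp_equiv Sur_equiv)

/-- one copy -/
def one (ι : Type) : ι ≃ Fin (0 + 1) × ι where
  toFun x := (0, x)
  invFun p := p.2
  left_inv _ := rfl
  right_inv := by
    rintro ⟨⟨i, hi⟩, x⟩
    have : i = 0 := by omega
    subst this
    rfl

/-- one more copy -/
def nxt (r : ℕ) (ι : Type) : (Fin r × ι) ⊕ ι ≃ Fin (r + 1) × ι :=
  (Equiv.sumCongr (Equiv.refl _) (one ι)).trans
    ((Equiv.sumProdDistrib (Fin r) (Fin (0 + 1)) ι).symm.trans
      (Equiv.prodCongr finSumFinEquiv (Equiv.refl ι)))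

/-- `r + 1` blocks, emptiness -/
theorem Emp_copies {ι : Type} [Finite ι] {w : ι → ℕ} {h M : ℕ} {x : ℝ} (hM : 1 ≤ M)
    (hx : Irrational x) (hE : Emp w (Sc x (x + M) h ∪ {((0, (h : ℤ)) : ℤ × ℤ)})) (r : ℕ) :
    Emp (fun p : Fin (r + 1) × ι => w p.2)
      (Sc x (x + ((r + 1) * M : ℕ)) h ∪ {((0, (h : ℤ)) : ℤ × ℤ)}) := by
  have hMR : (1 : ℝ) ≤ M := by exact_mod_cast hM
  induction r with
  | zero =>
    have e1 : x + (((0 + 1) * M : ℕ) : ℝ) = x + M := by push_cast; ring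
    rw [e1]
    exact Emp_equiv (one ι) (fun _ => rfl) hE
  | succ r ih =>
    have h2 : Emp w (Sc (x + (((r + 1) * M : ℕ) : ℤ)) (x + M + (((r + 1) * M : ℕ) : ℤ)) h) :=
      Emp_shift _ (hE.mono Set.subset_union_left)
    have e1 : x + (((r + 1 + 1) * M : ℕ) : ℝ) = x + M + ((((r + 1) * M : ℕ) : ℤ) : ℝ) := by
      push_cast; ring
    have e2 : x + (((r + 1) * M : ℕ) : ℝ) = x + ((((r + 1) * M : ℕ) : ℤ) : ℝ) := by
      push_cast; ring
    rw [e1]
    rw [e2] at ih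
    have h0 : (0 : ℝ) < ((((r + 1) * M : ℕ) : ℤ) : ℝ) := by
      have : 0 < (r + 1) * M := by positivity
      exact_mod_cast this
    have key := Emp_add (x := x) (y := x + ((((r + 1) * M : ℕ) : ℤ) : ℝ))
      (z := x + M + ((((r + 1) * M : ℕ) : ℤ) : ℝ)) (by linarith) (by linarith) (hx.add_intCast _) ih h2
    refine Emp_equiv (nxt (r + 1) ι) ?_ key
    rintro (⟨i, y⟩ | y) <;> rfl

/-- `r + 1` blocks, independence -/
theorem Sur_copies {ι : Type} [Fintype ι] {w : ι → ℕ} {h M : ℕ} {x : ℝ} (hM : 1 ≤ M)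
    (hE : Sur w (Sc x (x + M) h)) (r : ℕ) :
    Sur (fun p : Fin (r + 1) × ι => w p.2) (Sc x (x + ((r + 1) * M : ℕ)) h) := by
  have hMR : (1 : ℝ) ≤ M := by exact_mod_cast hM
  induction r with
  | zero =>
    have e1 : x + (((0 + 1) * M : ℕ) : ℝ) = x + M := by push_cast; ring
    rw [e1]
    exact Sur_equiv (one ι) (fun _ => rfl) hE
  | succ r ih =>
    have h2 : Sur w (Sc (x + (((r + 1) * M : ℕ) : ℤ)) (x + M + (((r + 1) * M : ℕ) : ℤ)) h) :=
      Sur_shift _ hE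
    have e1 : x + (((r + 1 + 1) * M : ℕ) : ℝ) = x + M + ((((r + 1) * M : ℕ) : ℤ) : ℝ) := by
      push_cast; ring
    have e2 : x + (((r + 1) * M : ℕ) : ℝ) = x + ((((r + 1) * M : ℕ) : ℤ) : ℝ) := by
      push_cast; ring
    rw [e1]
    rw [e2] at ih
    have h0 : (0 : ℝ) < ((((r + 1) * M : ℕ) : ℤ) : ℝ) := by
      have : 0 < (r + 1) * M := by positivity
      exact_mod_cast this
    have key := Sur_add (x := x) (y := x + ((((r + 1) * M : ℕ) : ℤ) : ℝ))
      (z := x + M + ((((r + 1) * M : ℕ) : ℤ) : ℝ)) (by linarith) (by linarith) ih h2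
    refine Sur_equiv (nxt (r + 1) ι) ?_ key
    rintro (⟨i, y⟩ | y) <;> rfl

/-- **anticanonical degrees, nearly equal multiplicities**: emptiness or independence -/
theorem near_anti {M r k b c : ℕ} (hM : 1 ≤ M) (hk : (r + 1) * M + k = 9) (hbc : b + c = M + 4)
    (h m : ℕ) :
    Emp (Sum.elim (fun p : Fin (r + 1) × (Fin b ⊕ Fin c) => bl b c m p.2) (fun _ : Fin k => h))
      (TZ (3 * h)) ∨
    Sur (Sum.elim (fun p : Fin (r + 1) × (Fin b ⊕ Fin c) => bl b c m p.2) (fun _ : Fin k => h))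
      (TZ (3 * h)) := by
  have hS := slpKM hM
  have hK0 := hS.K0
  obtain ⟨hK1, hK2⟩ := KM_bounds hM
  obtain ⟨x, hx⟩ : ∃ x : ℝ, x = KM M - M := ⟨_, rfl⟩
  have hirr : Irrational x := by
    rw [hx]
    exact hS.irr.sub_natCast M
  have hx0 : 0 < x := by rw [hx]; linarith
  have hx3 : x < 3 := by rw [hx]; linarith
  have hxM : x + M = KM M := by rw [hx]; ring
  have ha : 1 ≤ (r + 1) * M := Nat.mul_pos (Nat.succ_pos r) hM
  have h9 : x + (((r + 1) * M + k : ℕ) : ℝ) = x + 9 := by rw [hk]; push_cast; ring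
  have hd : (((3 * h : ℕ) : ℝ)) / 3 = h := by push_cast; ring
  rcases near_bl hM hbc m (A := KM M * (3 * h : ℕ) / 3) (by positivity) with hd' | hd'
  · left
    have h1 := Pool.Agent.TH864.SX.Emp_blk hS (d := 3 * h)
      (hd'.mono (Pool.Agent.TH469.SX.Fa_sub 1 (KM M) (3 * h)))
    have h2 : Emp (bl b c m) (Sc x (x + M) h ∪ {((0, (h : ℤ)) : ℤ × ℤ)}) := by
      refine h1.mono ?_
      rintro p (⟨g1, g2, g3⟩ | hp)
      · refine ⟨g1, ?_, ?_⟩
        · rw [hd, ← hx]; exact g2.le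
        · rw [hd, ← hxM]; exact g3.le
      · rw [Set.mem_singleton_iff] at hp
        rw [hp]
        refine ⟨by simp, ?_, ?_⟩
        · rw [hd]; simp
        · rw [hd]; simp
    have h3 := Emp_units ha hirr (Emp_copies hM hirr h2 r) k
    rw [h9] at h3
    exact Emp_plane9 hirr hx0 hx3 h3
  · right
    have h1 := Pool.Agent.TH469.SX.Sur_bo hS (d := 3 * h) hd'
    have h2 : Sur (bl b c m) (Sc x (x + M) h) := by
      refine h1.mono ?_
      rintro p ⟨g1, g2, g3⟩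
      rw [hd] at g2 g3
      exact ⟨g1, by rw [hx]; exact g2, by rw [hxM]; exact g3⟩
    have h3 := Sur_units ha hirr (Sur_copies hM h2 r) k
    rw [h9] at h3
    exact Sur_plane9 hirr hx0 hx3 h3

/-- the order of the points -/
noncomputable def eqf (R b c k n : ℕ) (h : k + (R * b + R * c) = n) :
    (Fin R × (Fin b ⊕ Fin c)) ⊕ Fin k ≃ Fin n :=
  (Equiv.sumComm _ _).trans ((Equiv.sumCongr (Equiv.refl _) ((Equiv.prodSumDistrib _ _ _).trans
    (Equiv.sumCongr finProdFinEquiv finProdFinEquiv))).trans (eqr k (R * b) (R * c) n h))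

theorem eqf_spec (R b c k n : ℕ) (h : k + (R * b + R * c) = n) (D m : ℕ)
    (x : (Fin R × (Fin b ⊕ Fin c)) ⊕ Fin k) :
    wt3 n k (R * b) D m (eqf R b c k n h x) =
      Sum.elim (fun p : Fin R × (Fin b ⊕ Fin c) => bl b c m p.2) (fun _ : Fin k => D) x := by
  unfold eqf
  rw [Equiv.trans_apply, Equiv.trans_apply, eqr_spec]
  rcases x with ⟨i, (j | j)⟩ | i <;> simp [bl]

theorem joint {M r k b : ℕ} (hM : 1 ≤ M) (hr : 1 ≤ r) (hk : k + r * M = 9) (hb : b ≤ M + 4)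
    (D m : ℕ) :
    Emp (wt3 (k + r * (M + 4)) k (r * b) D m) (TZ (3 * D)) ∨
    Sur (wt3 (k + r * (M + 4)) k (r * b) D m) (TZ (3 * D)) := by
  obtain ⟨r, rfl⟩ : ∃ r', r = r' + 1 := ⟨r - 1, by omega⟩
  obtain ⟨c, hc⟩ : ∃ c, b + c = M + 4 := ⟨M + 4 - b, by omega⟩
  have hn : k + ((r + 1) * b + (r + 1) * c) = k + (r + 1) * (M + 4) := by
    rw [← hc]; ring
  exact or_equiv (eqf (r + 1) b c k _ hn) (eqf_spec (r + 1) b c k _ hn D m)
    (near_anti hM (by rw [add_comm]; exact hk) hc D m)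

end Pool.Agent.TH864.DP
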