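import Pool.Agent.TH469.SX.TwentyOne
import Pool.Agent.TH151.N13.Abs

/-! Absorbing points of multiplicity `D` into the blocks of height `D`. -/

set_option autoImplicit false

namespace Pool.Agent.TH864.DP

open Finset Pool.Agent.TH176.Nag Pool.Agent.TH603.Sur Pool.Agent.TH603.Cut Pool.Agent.TH641.NW
open Pool.Agent.TH864.SX (Fb Fa Slp Blk)
open Pool.Agent.TH469.SX (Bo)
open Pool.Agent.TH151.N13 (Rg Ab Ab_nonneg Emp_absB Sur_absB)

theorem Ab_const {κ : Type} [Fintype κ] (D : ℕ) (y : ℤ) :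
    Ab (fun _ : κ => D) y = Fintype.card κ * max ((D : ℤ) - y) 0 := by
  simp [Pool.Agent.TH151.N13.Ab]

/-- absorbing, emptiness -/
theorem Emp_abs {κ ι : Type} [Fintype κ] {w : ι → ℕ} {M W D : ℕ} {K : ℝ}
    (hκ : Fintype.card κ + M = W) (hM : 0 < M) (hE : Emp w (Blk M K (3 * D))) :
    Emp (Sum.elim (fun _ : κ => D) w) (Blk W (K - M + W) (3 * D)) := by
  have hD : ((3 * D : ℕ) : ℝ) / 3 = D := by push_cast; ring
  have hWR : (W : ℝ) = Fintype.card κ + M := by rw [← hκ]; push_cast; ring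
  have hMR : (0 : ℝ) < M := by exact_mod_cast hM
  have hc0 : (0 : ℝ) ≤ Fintype.card κ := Nat.cast_nonneg _
  obtain ⟨A, hA⟩ : ∃ A : ℤ → ℤ, ∀ y : ℤ, A y = ⌈-((K - M + W) * ((D : ℝ) - y))⌉ - 1 :=
    ⟨_, fun _ => rfl⟩
  obtain ⟨C, hC⟩ : ∃ C : ℤ → ℤ, ∀ y : ℤ, C y = ⌊-((K - M) * ((D : ℝ) - y))⌋ := ⟨_, fun _ => rfl⟩
  have mem : ∀ x y : ℤ, ((x, y) : ℤ × ℤ) ∈ Rg A C ↔
      0 ≤ y ∧ -((K - M + W) * ((D : ℝ) - y)) ≤ x ∧ (x : ℝ) ≤ -((K - M) * ((D : ℝ) - y)) := by
    intro x y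
    have e1 : (-((K - M + W) * ((D : ℝ) - y)) ≤ x) ↔ A y < x := by
      rw [hA, ← Int.ceil_le]; omega
    have e2 : ((x : ℝ) ≤ -((K - M) * ((D : ℝ) - y))) ↔ x ≤ C y := by
      rw [hC, Int.le_floor]
    rw [e1, e2]
    rfl
  have hfin : (Rg A C).Finite := by
    refine (Pool.Agent.TH469.SX.Reg_finite (α := -((K - M + W) * D)) (β := -((K - M) * D))
      (μ := K - M + W) (ν := -(K - M)) (by linarith)).subset ?_
    rintro ⟨x, y⟩ hp
    obtain ⟨g1, g2, g3⟩ := (mem x y).1 hp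
    refine ⟨g1, ?_, ?_⟩
    · simp only; linarith
    · simp only; linarith
  have h1 : Emp w (Rg (fun y => A y + Ab (fun _ : κ => D) y) C) := by
    refine hE.comap (-1) 0 0 1 0 0 (by norm_num) ?_
    rintro ⟨x, y⟩ ⟨g1, g2, g3⟩
    simp only at g1 g2 g3
    obtain ⟨-, h3, h4⟩ := (mem x y).1 ⟨g1, by
      have := Ab_nonneg (fun _ : κ => D) y
      simp only
      omega, g3⟩
    have h5 : 0 ≤ (D : ℝ) - y := by
      by_contra hcon
      push Not at hcon
      have h6 : (W : ℝ) * ((D : ℝ) - y) < 0 := mul_neg_of_pos_of_neg (by linarith) hcon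
      nlinarith
    have h6 : (y : ℤ) ≤ D := by
      have : (y : ℝ) ≤ D := by linarith
      exact_mod_cast this
    rw [Ab_const, max_eq_left (by omega)] at g2
    have e : ((-1 * x + 0 * y + 0, 0 * x + 1 * y + 0) : ℤ × ℤ) = (-x, y) := by
      ext
      · simp
      · simp
    simp only
    rw [e]
    refine ⟨by simpa using g1, ?_, ?_⟩
    · simp only
      rw [hD]
      push_cast
      linarith
    · simp only
      rw [hD]
      have h7 : -((K - M + W) * ((D : ℝ) - y)) ≤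
          ((x - Fintype.card κ * ((D : ℤ) - y) : ℤ) : ℝ) := by
        rw [← Int.ceil_le]
        rw [hA] at g2
        omega
      push_cast at h7 ⊢
      rw [hWR] at h7
      linarith
  refine (Emp_absB (fun _ : κ => D) A C hfin h1).comap (-1) 0 0 1 0 0 (by norm_num) ?_
  rintro ⟨x, y⟩ ⟨g1, g2, g3⟩
  simp only at g1 g2 g3
  rw [hD] at g2 g3
  have e : ((-1 * x + 0 * y + 0, 0 * x + 1 * y + 0) : ℤ × ℤ) = (-x, y) := by
    ext
    · simp
    · simp
  simp only
  rw [e, mem]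
  refine ⟨g1, ?_, ?_⟩
  · push_cast
    linarith
  · push_cast
    linarith

/-- absorbing, independence -/
theorem Sur_abs {κ ι : Type} [Fintype κ] [Fintype ι] {w : ι → ℕ} {M W D : ℕ} {K : ℝ}
    (hκ : Fintype.card κ + M = W) (hM : 0 < M) (hS : Sur w (Bo M K (3 * D))) :
    Sur (Sum.elim (fun _ : κ => D) w) (Bo W (K - M + W) (3 * D)) := by
  have hD : ((3 * D : ℕ) : ℝ) / 3 = D := by push_cast; ring
  have hWR : (W : ℝ) = Fintype.card κ + M := by rw [← hκ]; push_cast; ring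
  have hM1 : (1 : ℝ) ≤ M := by exact_mod_cast hM
  have hc0 : (0 : ℝ) ≤ Fintype.card κ := Nat.cast_nonneg _
  obtain ⟨A, hA⟩ : ∃ A : ℤ → ℤ, ∀ y : ℤ, A y = ⌊-((K - M + W) * ((D : ℝ) - y))⌋ :=
    ⟨_, fun _ => rfl⟩
  obtain ⟨C, hC⟩ : ∃ C : ℤ → ℤ, ∀ y : ℤ, C y = ⌈-((K - M) * ((D : ℝ) - y))⌉ - 1 := ⟨_, fun _ => rfl⟩
  have mem : ∀ x y : ℤ, ((x, y) : ℤ × ℤ) ∈ Rg A C ↔
      0 ≤ y ∧ -((K - M + W) * ((D : ℝ) - y)) < x ∧ (x : ℝ) < -((K - M) * ((D : ℝ) - y)) := by
    intro x y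
    have e1 : (-((K - M + W) * ((D : ℝ) - y)) < x) ↔ A y < x := by
      rw [hA, Int.floor_lt]
    have e2 : ((x : ℝ) < -((K - M) * ((D : ℝ) - y))) ↔ x ≤ C y := by
      rw [hC, ← Int.lt_ceil]; omega
    rw [e1, e2]
    rfl
  have h1 : Sur w (Rg (fun y => A y + Ab (fun _ : κ => D) y) C) := by
    refine hS.comap (-1) 0 0 1 0 0 (by norm_num) ?_
    rintro ⟨x, y⟩ ⟨g1, g2, g3⟩
    simp only at g1 g2 g3
    rw [hD] at g2 g3
    have h5 : 0 < (D : ℝ) - y := by
      by_contra hcon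
      push Not at hcon
      have h6 : (M : ℝ) * ((D : ℝ) - y) ≤ 0 :=
        mul_nonpos_of_nonneg_of_nonpos (by linarith) hcon
      nlinarith
    have h6 : (y : ℤ) ≤ D := by
      have : (y : ℝ) ≤ D := by linarith
      exact_mod_cast this
    refine ⟨(-x, y), ⟨g1, ?_, ?_⟩, ?_⟩
    · simp only
      rw [Ab_const, max_eq_left (by omega)]
      have h7 : A y < -x - Fintype.card κ * ((D : ℤ) - y) := by
        rw [hA, Int.floor_lt]
        push_cast
        rw [hWR]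
        linarith
      linarith
    · simp only
      have h7 : -x < ⌈-((K - M) * ((D : ℝ) - y))⌉ := by
        rw [Int.lt_ceil]
        push_cast
        linarith
      rw [hC]
      omega
    · ext
      · simp
      · simp
  refine (Sur_absB (fun _ : κ => D) A C (fun y hy hpos => ?_) h1).comap (-1) 0 0 1 0 0
    (by norm_num) ?_
  · rw [Ab_const] at hpos ⊢
    have h6 : y < D := by
      by_contra hcon
      rw [max_eq_right (by omega)] at hpos
      simp at hpos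
    rw [max_eq_left (by omega)]
    have h7 : (1 : ℝ) ≤ (D : ℝ) - y := by
      have : y + 1 ≤ (D : ℤ) := by omega
      have : (y : ℝ) + 1 ≤ D := by exact_mod_cast this
      linarith
    have h8 : A y + Fintype.card κ * ((D : ℤ) - y) < ⌈-((K - M) * ((D : ℝ) - y))⌉ := by
      rw [Int.lt_ceil]
      have h9 := Int.floor_le (-((K - M + W) * ((D : ℝ) - y)))
      rw [← hA] at h9
      push_cast
      have h10 : 0 < (M : ℝ) * ((D : ℝ) - y) := by positivity
      rw [hWR] at h9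
      linarith
    rw [hC]
    omega
  · rintro ⟨x, y⟩ hp
    obtain ⟨g1, g2, g3⟩ := (mem x y).1 hp
    refine ⟨(-x, y), ⟨g1, ?_, ?_⟩, ?_⟩
    · simp only
      rw [hD]
      push_cast
      linarith
    · simp only
      rw [hD]
      push_cast
      linarith
    · ext
      · simp
      · simp

end Pool.Agent.TH864.DP
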