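import Pool.Agent.TH864.DP.Abs
import Pool.Agent.TH864.SX.Thirteen
import Pool.Agent.TH603.Sur.Main

/-! Families on the boundary `d = m₁ + m₂ + m₃`: emptiness or independence. -/

set_option autoImplicit false

namespace Pool.Agent.TH864.DP

open Finset Pool.Agent.TH176.Nag Pool.Agent.TH603.Sur Pool.Agent.TH603.Cut Pool.Agent.TH641.NW
open Pool.Agent.TH864.SX (Fb Fa Slp Blk blk_reg)
open Pool.Agent.TH469.SX (Bo Reg_finite cut_E cut_S)

theorem blk_TZ9E {ι : Type} {w : ι → ℕ} {K : ℝ} {d : ℕ} (hK9 : 9 < K) (h12 : K < 12)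
    (hE : Emp w (Blk 9 K d)) : Emp w (TZ d) := by
  refine keyE ι w d (K / 3 - 3) (by linarith) (by linarith) ?_
  refine hE.comap (-1) (-6) 0 1 (2 * d) 0 (by norm_num) ?_
  rintro ⟨i, j⟩ hp
  simp only
  have e : ((-1 * i + -6 * j + 2 * (d : ℤ), 0 * i + 1 * j + 0) : ℤ × ℤ) =
      (2 * (d : ℤ) - i - 6 * j, j) := by
    ext
    · simp only; ring
    · simp only; ring
  rw [e, blk_reg]
  have e2 : ((2 * (d : ℤ) - (2 * (d : ℤ) - i - 6 * j) - 6 * j, j) : ℤ × ℤ) = (i, j) := by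
    ext
    · simp only; ring
    · rfl
  rw [e2]
  exact hp

theorem bo_TZ9S {ι : Type} [Fintype ι] {w : ι → ℕ} {K : ℝ} {d : ℕ} (hK9 : 9 < K) (h12 : K < 12)
    (hirr : Irrational K) (hS : Sur w (Bo 9 K d)) : Sur w (TZ d) := by
  refine keyS ι w d (K / 3 - 3) (by linarith) (by linarith) ?_ ?_
  · have := (hirr.div_natCast (m := 3) (by norm_num)).sub_natCast 3
    simpa using this
  have hS' : Sur w (Blk 9 K d) := hS.mono fun p hp => ⟨hp.1, hp.2.1.le, hp.2.2.le⟩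
  refine hS'.comap (-1) (-6) 0 1 (2 * d) 0 (by norm_num) ?_
  rintro ⟨t, j⟩ hp
  refine ⟨(2 * (d : ℤ) - t - 6 * j, j), blk_reg.1 hp, ?_⟩
  ext
  · simp only; ring
  · simp only; ring

/-- **three sectors, emptiness** -/
theorem blk_TZ3E {ι : Type} [Finite ι] {w : ι → ℕ} {K : ℝ} {d : ℕ} (hK3 : 3 < K) (h6 : K < 6)
    (hB : Emp w (Blk 3 K d)) : Emp (Sum.elim (Sum.elim w w) w) (TZ d) := by
  obtain ⟨τ, hτ⟩ : ∃ τ : ℝ, τ = K / 3 - 1 := ⟨_, rfl⟩
  have hτ0 : 0 < τ := by linarith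
  have hτ1 : τ < 1 := by linarith
  have hK : K = 3 + 3 * τ := by linarith
  have hsec : ∀ i : ℕ, Emp w {p : ℤ × ℤ | 0 ≤ p.2 ∧
      ((i : ℝ) - 1 - τ) * ((d : ℝ) - 3 * p.2) ≤ p.1 ∧ (p.1 : ℝ) ≤ ((i : ℝ) - τ) * ((d : ℝ) - 3 * p.2)} := by
    intro i
    refine hB.comap (-1) (-(3 * (i : ℤ))) 0 1 (i * d) 0 (by norm_num) ?_
    rintro ⟨x, y⟩ ⟨g1, g2, g3⟩
    simp only at g1 g2 g3
    refine ⟨by simp only; omega, ?_, ?_⟩
    · simp only
      rw [hK]
      push_cast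
      linarith
    · simp only
      rw [hK]
      push_cast
      linarith
  refine keyE _ _ d τ hτ0 hτ1 ?_
  have hfin := Reg_finite (α := -((d : ℝ) * (1 + τ))) (β := d * (2 - τ))
    (μ := 3 * (1 + τ)) (ν := 3 * (2 - τ)) (by linarith)
  set R := Reg (-((d : ℝ) * (1 + τ))) (d * (2 - τ)) (3 * (1 + τ)) (3 * (2 - τ)) with hR
  have hpos : ∀ p ∈ R, (0 : ℝ) ≤ (d : ℝ) - 3 * p.2 := by
    rintro ⟨x, y⟩ ⟨g1, g2, g3⟩
    simp only at g1 g2 g3 ⊢
    nlinarith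
  have hcov : R ⊆ ({p | p ∈ R ∧ (p.1 : ℝ) ≤ -τ * ((d : ℝ) - 3 * p.2)} ∪
      {p | p ∈ R ∧ -τ * ((d : ℝ) - 3 * p.2) < p.1 ∧ (p.1 : ℝ) ≤ (1 - τ) * ((d : ℝ) - 3 * p.2)}) ∪
      {p | p ∈ R ∧ (1 - τ) * ((d : ℝ) - 3 * p.2) < p.1} := by
    intro p hp
    rcases le_or_gt (p.1 : ℝ) (-τ * ((d : ℝ) - 3 * p.2)) with h1 | h1
    · exact Or.inl (Or.inl ⟨hp, h1⟩)
    · rcases le_or_gt (p.1 : ℝ) ((1 - τ) * ((d : ℝ) - 3 * p.2)) with h2 | h2
      · exact Or.inl (Or.inr ⟨hp, h1, h2⟩)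
      · exact Or.inr ⟨hp, h2⟩
  refine Emp.mono ?_ hcov
  refine cut_E (ρ := -3 * (1 - τ)) (hfin.subset ?_) (hfin.subset fun p hp => hp.1) ?_
    (cut_E (ρ := 3 * τ) (hfin.subset fun p hp => hp.1) (hfin.subset fun p hp => hp.1) ?_ ?_ ?_) ?_
  · rintro p (hp | hp)
    · exact hp.1
    · exact hp.1
  · rintro p (⟨hp, h1⟩ | ⟨hp, h1, h2⟩) p' ⟨hp', h3⟩
    · have := hpos p hp
      nlinarith
    · linarith
  · rintro p ⟨hp, h1⟩ p' ⟨hp', h2, h3⟩
    linarith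
  · refine (hsec 0).mono ?_
    rintro ⟨x, y⟩ ⟨⟨g1, g2, g3⟩, h1⟩
    simp only at g1 g2 g3 h1
    refine ⟨g1, ?_, ?_⟩
    · simp only; push_cast; linarith
    · simp only; push_cast; linarith
  · refine (hsec 1).mono ?_
    rintro ⟨x, y⟩ ⟨⟨g1, g2, g3⟩, h1, h2⟩
    simp only at g1 g2 g3 h1 h2
    refine ⟨g1, ?_, ?_⟩
    · simp only; push_cast; linarith
    · simp only; push_cast; linarith
  · refine (hsec 2).mono ?_
    rintro ⟨x, y⟩ ⟨⟨g1, g2, g3⟩, h1⟩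
    simp only at g1 g2 g3 h1
    refine ⟨g1, ?_, ?_⟩
    · simp only; push_cast; linarith
    · simp only; push_cast; linarith

/-- **three sectors, independence** -/
theorem bo_TZ3S {ι : Type} [Fintype ι] {w : ι → ℕ} {K : ℝ} {d : ℕ} (hK3 : 3 < K) (h6 : K < 6)
    (hirr : Irrational K) (hB : Sur w (Bo 3 K d)) : Sur (Sum.elim (Sum.elim w w) w) (TZ d) := by
  obtain ⟨τ, hτ⟩ : ∃ τ : ℝ, τ = K / 3 - 1 := ⟨_, rfl⟩
  have hτ0 : 0 < τ := by linarith
  have hτ1 : τ < 1 := by linarith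
  have hK : K = 3 + 3 * τ := by linarith
  have hsec : ∀ i : ℕ, Sur w {p : ℤ × ℤ | 0 ≤ p.2 ∧
      ((i : ℝ) - 1 - τ) * ((d : ℝ) - 3 * p.2) < p.1 ∧ (p.1 : ℝ) < ((i : ℝ) - τ) * ((d : ℝ) - 3 * p.2)} := by
    intro i
    refine hB.comap (-1) (-(3 * (i : ℤ))) 0 1 (i * d) 0 (by norm_num) ?_
    rintro ⟨t, y⟩ ⟨g1, g2, g3⟩
    simp only at g1 g2 g3
    rw [hK] at g2 g3
    push_cast at g2 g3
    refine ⟨(i * d - 3 * i * y - t, y), ⟨g1, ?_, ?_⟩, ?_⟩
    · simp only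
      push_cast
      linarith
    · simp only
      push_cast
      linarith
    · ext
      · simp only; ring
      · simp only; ring
  refine keyS _ _ d τ hτ0 hτ1 ?_ ?_
  · have := (hirr.div_natCast (m := 3) (by norm_num)).sub_natCast 1
    rw [hτ]
    simpa using this
  have hpos : ∀ p : ℤ × ℤ, ∀ a : ℝ, (a - 1 - τ) * ((d : ℝ) - 3 * p.2) < p.1 →
      (p.1 : ℝ) < (a - τ) * ((d : ℝ) - 3 * p.2) → (0 : ℝ) < (d : ℝ) - 3 * p.2 := by
    intro p a h1 h2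
    linarith
  have key := cut_S (ρ := -3 * (1 - τ)) ?_ (cut_S (ρ := 3 * τ) ?_ (hsec 0) (hsec 1)) (hsec 2)
  · refine key.mono ?_
    rintro ⟨x, y⟩ ((⟨g1, g2, g3⟩ | ⟨g1, g2, g3⟩) | ⟨g1, g2, g3⟩)
    · have h0 := hpos _ _ g2 g3
      simp only at g1 g2 g3 h0
      push_cast at g2 g3
      refine ⟨g1, ?_, ?_⟩
      · simp only; linarith
      · simp only; linarith
    · have h0 := hpos _ _ g2 g3
      simp only at g1 g2 g3 h0
      push_cast at g2 g3
      refine ⟨g1, ?_, ?_⟩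
      · simp only; linarith
      · simp only; linarith
    · have h0 := hpos _ _ g2 g3
      simp only at g1 g2 g3 h0
      push_cast at g2 g3
      refine ⟨g1, ?_, ?_⟩
      · simp only; linarith
      · simp only; linarith
  · rintro p (⟨g1, g2, g3⟩ | ⟨g1, g2, g3⟩) p' ⟨g1', g2', g3'⟩
    · have h0 := hpos _ _ g2 g3
      push_cast at g3 g2'
      linarith
    · push_cast at g3 g2'
      linarith
  · rintro p ⟨g1, g2, g3⟩ p' ⟨g1', g2', g3'⟩
    push_cast at g3 g2'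
    linarith

/-! ### the slopes -/

/-- the slope of the block of width `M` -/
noncomputable def KM (M : ℕ) : ℝ := (M + √((M ^ 2 + 4 * M : ℕ) : ℝ)) / 2

theorem irrKM {M : ℕ} (hM : 0 < M) : Irrational (KM M) := by
  have h : Irrational (√((M ^ 2 + 4 * M : ℕ) : ℝ)) := by
    have h1 : ¬ IsSquare (M ^ 2 + 4 * M : ℕ) := by
      rintro ⟨a, ha⟩
      have h2 : M + 1 < a := by
        by_contra hcon
        push Not at hcon
        have := Nat.mul_le_mul hcon hcon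
        nlinarith
      have h3 : a < M + 2 := by
        by_contra hcon
        push Not at hcon
        have := Nat.mul_le_mul hcon hcon
        nlinarith
      omega
    exact irrational_sqrt_natCast_iff.2 h1
  have e : KM M = ((M / 2 : ℚ) : ℝ) + ((1 / 2 : ℚ) : ℝ) * √((M ^ 2 + 4 * M : ℕ) : ℝ) := by
    unfold KM; push_cast; ring
  rw [e]
  exact (h.ratCast_mul (by norm_num)).ratCast_add _

theorem KM_bounds {M : ℕ} (hM : 0 < M) : (M : ℝ) < KM M ∧ KM M < M + 1 := by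
  have hMR : (0 : ℝ) < M := by exact_mod_cast hM
  have h1 : (M : ℝ) < √((M ^ 2 + 4 * M : ℕ) : ℝ) := by
    rw [Real.lt_sqrt (by positivity)]
    push_cast
    linarith
  have h2 : √((M ^ 2 + 4 * M : ℕ) : ℝ) < M + 2 := by
    rw [Real.sqrt_lt' (by positivity)]
    push_cast
    nlinarith
  unfold KM
  constructor
  · linarith
  · linarith

theorem slpKM {M : ℕ} (hM : 0 < M) : Slp M 1 (KM M) := by
  refine ⟨hM, by norm_num, (KM_bounds hM).1, ?_, irrKM hM⟩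
  have h1 : √((M ^ 2 + 4 * M : ℕ) : ℝ) * √((M ^ 2 + 4 * M : ℕ) : ℝ) = (M ^ 2 + 4 * M : ℕ) :=
    Real.mul_self_sqrt (Nat.cast_nonneg _)
  unfold KM
  push_cast at h1 ⊢
  linear_combination (1 / 4) * h1

/-- emptiness or independence in the block with the absorbed points -/
theorem dich_W {M a W : ℕ} (hM : 0 < M) (h : a + M = W) (m D : ℕ) :
    Emp (Sum.elim (fun _ : Fin a => D) (fun _ : Fin (M + 4) => m)) (Blk W (KM M - M + W) (3 * D)) ∨
    Sur (Sum.elim (fun _ : Fin a => D) (fun _ : Fin (M + 4) => m)) (Bo W (KM M - M + W) (3 * D)) := by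
  have hs := slpKM hM
  rcases Pool.Agent.TH469.SX.dich hs (Pool.Agent.TH469.SX.step3 hs) m (3 * D) with h1 | h1
  · left
    exact Emp_abs (by simpa using h) hM (Pool.Agent.TH864.SX.Emp_blk hs h1)
  · right
    exact Sur_abs (by simpa using h) hM (Pool.Agent.TH469.SX.Sur_bo hs h1)

theorem irrK' {M W : ℕ} (hM : 0 < M) : Irrational (KM M - M + W) :=
  ((irrKM hM).sub_natCast M).add_natCast W

/-- one sector -/
theorem dich9 {M a : ℕ} (hM : 0 < M) (h : a + M = 9) (m D : ℕ) :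
    Emp (Sum.elim (fun _ : Fin a => D) (fun _ : Fin (M + 4) => m)) (TZ (3 * D)) ∨
    Sur (Sum.elim (fun _ : Fin a => D) (fun _ : Fin (M + 4) => m)) (TZ (3 * D)) := by
  have hb := KM_bounds hM
  rcases dich_W hM h m D with h1 | h1
  · left
    exact blk_TZ9E (by push_cast; linarith) (by push_cast; linarith) h1
  · right
    exact bo_TZ9S (by push_cast; linarith) (by push_cast; linarith) (irrK' hM) h1

/-- three sectors -/
theorem dich3 {M a : ℕ} (hM : 0 < M) (h : a + M = 3) (m D : ℕ) :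
    Emp (Sum.elim (Sum.elim (Sum.elim (fun _ : Fin a => D) (fun _ : Fin (M + 4) => m))
      (Sum.elim (fun _ : Fin a => D) (fun _ : Fin (M + 4) => m)))
      (Sum.elim (fun _ : Fin a => D) (fun _ : Fin (M + 4) => m))) (TZ (3 * D)) ∨
    Sur (Sum.elim (Sum.elim (Sum.elim (fun _ : Fin a => D) (fun _ : Fin (M + 4) => m))
      (Sum.elim (fun _ : Fin a => D) (fun _ : Fin (M + 4) => m)))
      (Sum.elim (fun _ : Fin a => D) (fun _ : Fin (M + 4) => m))) (TZ (3 * D)) := by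
  have hb := KM_bounds hM
  rcases dich_W hM h m D with h1 | h1
  · left
    exact blk_TZ3E (by push_cast; linarith) (by push_cast; linarith) h1
  · right
    exact bo_TZ3S (by push_cast; linarith) (by push_cast; linarith) (irrK' hM) h1

end Pool.Agent.TH864.DP
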