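import Pool.Agent.TH864.DP.Fam

/-! The families on the boundary, for weights on `Fin n`, and the expected dimension. -/

set_option autoImplicit false

namespace Pool.Agent.TH864.DP

open Finset Pool.Agent.TH176.Nag Pool.Agent.TH603.Sur Pool.Agent.TH603.Cut Pool.Agent.H932R3

theorem or_equiv {ι κ : Type} [Fintype ι] [Fintype κ] {w : ι → ℕ} {v : κ → ℕ} (e : ι ≃ κ)
    (h : ∀ i, v (e i) = w i) {S : Set (ℤ × ℤ)} (hd : Emp w S ∨ Sur w S) : Emp v S ∨ Sur v S := by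
  rcases hd with hd | ⟨T, h1, h2, h3⟩
  · exact Or.inl (Emp_emb e e.injective (fun i => (h i).ge) hd)
  · refine Or.inr ⟨T, h1, ?_, Emp_emb e e.injective (fun i => (h i).ge) h3⟩
    rw [h2]
    unfold Pool.Agent.TH603.Sur.cond
    exact Fintype.sum_equiv e _ _ fun i => by rw [h]

/-- the weights: `a` points of multiplicity `D`, the other points of multiplicity `m` -/
def wt (n a D m : ℕ) : Fin n → ℕ := fun i => if (i : ℕ) < a then D else m

/-- three copies of two kinds -/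
noncomputable def eq3 (a b n : ℕ) (h : 3 * a + 3 * b = n) :
    ((Fin a ⊕ Fin b) ⊕ (Fin a ⊕ Fin b)) ⊕ (Fin a ⊕ Fin b) ≃ Fin n :=
  ((Equiv.sumCongr (Equiv.sumSumSumComm _ _ _ _) (Equiv.refl _)).trans
    (Equiv.sumSumSumComm _ _ _ _)).trans
    ((Equiv.sumCongr
      (Fintype.equivOfCardEq (α := (Fin a ⊕ Fin a) ⊕ Fin a) (β := Fin (3 * a)) (by simp; ring))
      (Fintype.equivOfCardEq (α := (Fin b ⊕ Fin b) ⊕ Fin b) (β := Fin (3 * b)) (by simp; ring))).trans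
      (finSumFinEquiv.trans (finCongr h)))

theorem fam13 {a : ℕ} (ha : a ≤ 8) (D m : ℕ) :
    Emp (wt 13 a D m) (TZ (3 * D)) ∨ Sur (wt 13 a D m) (TZ (3 * D)) := by
  obtain ⟨M, hM⟩ : ∃ M, a + M = 9 := ⟨9 - a, by omega⟩
  refine or_equiv (finSumFinEquiv.trans (finCongr (show a + (M + 4) = 13 by omega))) ?_
    (dich9 (M := M) (by omega) hM m D)
  rintro (i | i)
  · simp [wt]
  · simp [wt]

theorem fam21 {a M : ℕ} (hM : 0 < M) (h : a + M = 3) (D m : ℕ) :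
    Emp (wt 21 (3 * a) D m) (TZ (3 * D)) ∨ Sur (wt 21 (3 * a) D m) (TZ (3 * D)) := by
  refine or_equiv (eq3 a (M + 4) 21 (by omega)) ?_ (dich3 (M := M) hM h m D)
  rintro (((i | i) | (i | i)) | (i | i)) <;>
    simp [wt, eq3]

theorem fam_or {n a : ℕ} (h : (n = 13 ∧ a ≤ 8) ∨ (n = 21 ∧ (a = 0 ∨ a = 3 ∨ a = 6))) (D m : ℕ) :
    Emp (wt n a D m) (TZ (3 * D)) ∨ Sur (wt n a D m) (TZ (3 * D)) := by
  rcases h with ⟨rfl, h⟩ | ⟨rfl, rfl | rfl | rfl⟩
  · exact fam13 h D m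
  · exact fam21 (a := 0) (M := 3) (by norm_num) (by norm_num) D m
  · exact fam21 (a := 1) (M := 2) (by norm_num) (by norm_num) D m
  · exact fam21 (a := 2) (M := 1) (by norm_num) (by norm_num) D m

end Pool.Agent.TH864.DP
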