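import Pool.Agent.TH864.DP.Near

/-! The families on the boundary: the expected dimension. -/

set_option autoImplicit false

namespace Pool.Agent.TH864.DP

open Finset Pool.Agent.TH176.Nag Pool.Agent.TH603.Sur Pool.Agent.TH603.Cut Pool.Agent.H932R3
open Pool.Agent.TH864.SX (Fb Fa Slp Blk)
open Pool.Agent.TH469.SX (Bo Fl)

/-- the multiplicities of one block -/
def bl (b c m : ℕ) : Fin b ⊕ Fin c → ℕ := Sum.elim (fun _ => m + 1) (fun _ => m)

theorem near_bl {M b c : ℕ} (hM : 0 < M) (hbc : b + c = M + 4) (m : ℕ) {A : ℝ} (hA0 : 0 ≤ A) :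
    Emp (bl b c m) (Fl 1 (KM M) A ∪ {((0, 0) : ℤ × ℤ)}) ∨ Sur (bl b c m) (Fl 1 (KM M) A) := by
  classical
  rcases Nat.eq_zero_or_pos c with hc | hc
  · subst hc
    have hb : 0 < b := by omega
    refine near_blk (m := m + 1) (i0 := Sum.inl ⟨0, hb⟩) hM (by simp; omega) ?_ rfl hA0
    rintro (i | i)
    · exact Or.inl rfl
    · exact i.elim0
  · refine near_blk (m := m) (i0 := Sum.inr ⟨0, hc⟩) hM (by simp; omega) ?_ rfl hA0
    rintro (i | i)
    · exact Or.inr rfl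
    · exact Or.inl rfl

/-- emptiness or independence in the block with the absorbed points -/
theorem near_W {M a b c W : ℕ} (hM : 0 < M) (h : a + M = W) (hbc : b + c = M + 4) (m D : ℕ) :
    Emp (Sum.elim (fun _ : Fin a => D) (bl b c m)) (Blk W (KM M - M + W) (3 * D)) ∨
    Sur (Sum.elim (fun _ : Fin a => D) (bl b c m)) (Bo W (KM M - M + W) (3 * D)) := by
  have hs := slpKM hM
  have hK0 := hs.K0
  rcases near_bl hM hbc m (A := KM M * (3 * D : ℕ) / 3) (by positivity) with h1 | h1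
  · left
    refine Emp_abs (by simpa using h) hM (Pool.Agent.TH864.SX.Emp_blk hs ?_)
    exact h1.mono (Pool.Agent.TH469.SX.Fa_sub 1 (KM M) (3 * D))
  · right
    exact Sur_abs (by simpa using h) hM (Pool.Agent.TH469.SX.Sur_bo hs h1)

/-- the weights: `a` times `D`, `b` times `m + 1`, then `m` -/
def wt3 (n a b D m : ℕ) : Fin n → ℕ :=
  fun i => if (i : ℕ) < a then D else if (i : ℕ) < a + b then m + 1 else m

/-- three kinds in a row -/
noncomputable def eqr (a b c n : ℕ) (h : a + (b + c) = n) : Fin a ⊕ (Fin b ⊕ Fin c) ≃ Fin n :=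
  (Equiv.sumCongr (Equiv.refl _) finSumFinEquiv).trans (finSumFinEquiv.trans (finCongr h))

theorem eqr_spec (a b c n : ℕ) (h : a + (b + c) = n) (D m : ℕ) (x : Fin a ⊕ (Fin b ⊕ Fin c)) :
    wt3 n a b D m (eqr a b c n h x) = Sum.elim (fun _ : Fin a => D) (bl b c m) x := by
  rcases x with i | (i | i)
  · simp [wt3, eqr]
  · simp [wt3, eqr, bl]
  · simp [wt3, eqr, bl]

/-- three copies of two kinds -/
def com3 (A B : Type) : ((A ⊕ B) ⊕ (A ⊕ B)) ⊕ (A ⊕ B) ≃ ((A ⊕ A) ⊕ A) ⊕ ((B ⊕ B) ⊕ B) :=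
  (Equiv.sumCongr (Equiv.sumSumSumComm _ _ _ _) (Equiv.refl _)).trans (Equiv.sumSumSumComm _ _ _ _)

/-- three copies of `Fin a` -/
noncomputable def tri (a : ℕ) : (Fin a ⊕ Fin a) ⊕ Fin a ≃ Fin (3 * a) :=
  Fintype.equivOfCardEq (by simp; ring)

noncomputable def eqt (a b c n : ℕ) (h : 3 * a + (3 * b + 3 * c) = n) :
    ((Fin a ⊕ (Fin b ⊕ Fin c)) ⊕ (Fin a ⊕ (Fin b ⊕ Fin c))) ⊕ (Fin a ⊕ (Fin b ⊕ Fin c)) ≃ Fin n :=
  (com3 _ _).trans ((Equiv.sumCongr (tri a)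
    ((com3 _ _).trans (Equiv.sumCongr (tri b) (tri c)))).trans (eqr (3 * a) (3 * b) (3 * c) n h))

theorem eqt_spec (a b c n : ℕ) (h : 3 * a + (3 * b + 3 * c) = n) (D m : ℕ)
    (x : ((Fin a ⊕ (Fin b ⊕ Fin c)) ⊕ (Fin a ⊕ (Fin b ⊕ Fin c))) ⊕ (Fin a ⊕ (Fin b ⊕ Fin c))) :
    wt3 n (3 * a) (3 * b) D m (eqt a b c n h x) =
      Sum.elim (Sum.elim (Sum.elim (fun _ : Fin a => D) (bl b c m))
        (Sum.elim (fun _ : Fin a => D) (bl b c m))) (Sum.elim (fun _ : Fin a => D) (bl b c m)) x := by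
  unfold eqt
  rw [Equiv.trans_apply, Equiv.trans_apply, eqr_spec]
  rcases x with ((x | (x | x)) | (x | (x | x))) | (x | (x | x)) <;> simp [com3, bl]

theorem fam_near {n a b : ℕ} (h : (n = 13 ∧ a ≤ 8 ∧ a + b ≤ 13) ∨
    (n = 21 ∧ a ≤ 6 ∧ a + b ≤ 21 ∧ 3 ∣ a ∧ 3 ∣ b)) (D m : ℕ) :
    Emp (wt3 n a b D m) (TZ (3 * D)) ∨ Sur (wt3 n a b D m) (TZ (3 * D)) := by
  rcases h with ⟨rfl, h1, h2⟩ | ⟨rfl, h1, h2, ⟨a', rfl⟩, ⟨b', rfl⟩⟩
  · obtain ⟨M, hM⟩ : ∃ M, a + M = 9 := ⟨9 - a, by omega⟩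
    obtain ⟨c, hc⟩ : ∃ c, b + c = M + 4 := ⟨M + 4 - b, by omega⟩
    have hM0 : 0 < M := by omega
    have hb := KM_bounds hM0
    refine or_equiv (eqr a b c 13 (by omega)) (eqr_spec a b c 13 (by omega) D m) ?_
    rcases near_W hM0 hM hc m D with h1 | h1
    · left
      exact blk_TZ9E (by push_cast; linarith) (by push_cast; linarith) h1
    · right
      exact bo_TZ9S (by push_cast; linarith) (by push_cast; linarith) (irrK' hM0) h1
  · obtain ⟨M, hM⟩ : ∃ M, a' + M = 3 := ⟨3 - a', by omega⟩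
    obtain ⟨c, hc⟩ : ∃ c, b' + c = M + 4 := ⟨M + 4 - b', by omega⟩
    have hM0 : 0 < M := by omega
    have hb := KM_bounds hM0
    refine or_equiv (eqt a' b' c 21 (by omega)) (eqt_spec a' b' c 21 (by omega) D m) ?_
    rcases near_W hM0 hM hc m D with h1 | h1
    · left
      exact blk_TZ3E (by push_cast; linarith) (by push_cast; linarith) h1
    · right
      exact bo_TZ3S (by push_cast; linarith) (by push_cast; linarith) (irrK' hM0) h1

theorem TZ_mono {d e : ℕ} (h : d ≤ e) : TZ d ⊆ TZ e := by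
  rintro p ⟨h1, h2, h3⟩
  have : (d : ℤ) ≤ e := by exact_mod_cast h
  exact ⟨h1, h2, h3.trans this⟩

/-- **the expected dimension on the boundary** -/
theorem expDim_fam {n : ℕ} {w : Fin n → ℕ} {D : ℕ} (h : Emp w (TZ (3 * D)) ∨ Sur w (TZ (3 * D))) :
    ∃ F : MvPolynomial (Fin n × Fin 2) ℚ, F ≠ 0 ∧ ∀ {L : Type} [Field L] [CharZero L]
      (P : Fin n → Fin 2 → L), MvPolynomial.aeval (fun ij : Fin n × Fin 2 => P ij.1 ij.2) F ≠ 0 →
      ∀ d, ((d ≤ 3 * D ∧ (3 * D + 2).choose 2 ≤ ∑ i, (w i + 1).choose 2) ∨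
        (3 * D ≤ d ∧ ∑ i, (w i + 1).choose 2 ≤ (3 * D + 2).choose 2)) → ExpDim L w P d := by
  have h0 := Pool.Agent.TH864.SX.ED_of_or h
  exact expDim_two (w := w)
    (A := fun d => d ≤ 3 * D ∧ (3 * D + 2).choose 2 ≤ ∑ i, (w i + 1).choose 2)
    (B := fun d => 3 * D ≤ d ∧ ∑ i, (w i + 1).choose 2 ≤ (3 * D + 2).choose 2) (3 * D)
    (fun d hd => hd.1) (fun d hd => (h0.1 hd.2).mono (TZ_mono hd.1))
    (fun d hd => (h0.2 hd.2).mono (TZ_mono hd.1))

theorem sum_wt3 {n a b : ℕ} (h : a + b ≤ n) (D m : ℕ) : ∑ i, (wt3 n a b D m i + 1).choose 2 =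
    a * (D + 1).choose 2 + b * (m + 2).choose 2 + (n - a - b) * (m + 1).choose 2 := by
  obtain ⟨c, hc⟩ : ∃ c, a + (b + c) = n := ⟨n - a - b, by omega⟩
  have e : n - a - b = c := by omega
  rw [e, ← Fintype.sum_equiv (eqr a b c n hc) (fun x =>
    (Sum.elim (fun _ : Fin a => D) (bl b c m) x + 1).choose 2) _ (fun x => by rw [eqr_spec])]
  simp [Fintype.sum_sum_type, bl]
  ring

end Pool.Agent.TH864.DP
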