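import Pool.Agent.TH864.DP.Fin
import Pool.Agent.TH759.EV.NDich

/-! Nearly equal multiplicities on the blocks of every width. -/

set_option autoImplicit false

namespace Pool.Agent.TH864.DP

open Finset Pool.Agent.TH176.Nag Pool.Agent.TH603.Sur Pool.Agent.TH603.Cut Pool.Agent.TH469.SX
open Pool.Agent.TH759.EV (Emp_apex_w Sur_rows_w dich_blk)

/-- **emptiness or independence on a block, multiplicities `m` and `m + 1`** -/
theorem near_blk {M : ℕ} (hM : 0 < M) {ι : Type} [Fintype ι] [DecidableEq ι] {w : ι → ℕ} {m : ℕ}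
    (hc : Fintype.card ι = M + 4) (hw : ∀ i, w i = m ∨ w i = m + 1) {i0 : ι} (hw0 : w i0 = m)
    {A : ℝ} (hA0 : 0 ≤ A) :
    Emp w (Fl 1 (KM M) A ∪ {((0, 0) : ℤ × ℤ)}) ∨ Sur w (Fl 1 (KM M) A) := by
  have hs := slpKM hM
  obtain ⟨hb1, hb2⟩ := KM_bounds hM
  obtain ⟨K, hK⟩ : ∃ K : ℝ, K = KM M := ⟨_, rfl⟩
  rw [← hK] at hs hb1 hb2 ⊢
  have hK0 : 0 < K := hs.K0
  have hKq : ((1 : ℕ) : ℝ) * (K * (K - M)) = M := hs.eq
  have hK2 : K ^ 2 = M * K + M := by
    push_cast at hKq; linarith
  have hMR : (0 : ℝ) ≤ M := Nat.cast_nonneg _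
  have hid : (K + 2) * (K + 2) = (M + 4) * (K + 1) := by linarith
  obtain ⟨n1, hn1⟩ : ∃ n1 : ℕ, n1 = ∑ i, (w i - m) := ⟨_, rfl⟩
  have hS : ∀ k : ℕ, k ≤ m → ∑ i, (w i - k) = (M + 4) * (m - k) + n1 := by
    intro k hk
    rw [hn1]
    have : (M + 4) * (m - k) = ∑ _i : ι, (m - k) := by simp [hc]
    rw [this, ← sum_add_distrib]
    refine sum_congr rfl fun i _ => ?_
    rcases hw i with h | h <;> omega
  have hW : ∑ i, w i = (M + 4) * m + n1 := by
    have := hS 0 (Nat.zero_le _)
    simpa using this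
  have hn3 : n1 ≤ M + 3 := by
    have h1 : n1 = ∑ i ∈ univ.erase i0, (w i - m) := by
      rw [hn1, ← Finset.add_sum_erase univ _ (mem_univ i0), hw0]
      simp
    rw [h1]
    have h2 : ∑ i ∈ univ.erase i0, (w i - m) ≤ ∑ i ∈ univ.erase i0, 1 :=
      sum_le_sum fun i _ => by rcases hw i with h | h <;> omega
    have h3 : ∑ i ∈ univ.erase i0, 1 = M + 3 := by
      rw [sum_const, card_erase_of_mem (mem_univ _), card_univ, hc]
      simp
    omega
  have hWR : ((∑ i, w i : ℕ) : ℝ) = (M + 4) * m + n1 := by rw [hW]; push_cast; ring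
  obtain ⟨e, he⟩ : ∃ e : ℝ, e = A - (K + 2) * m := ⟨_, rfl⟩
  have hDm : A = (K + 2) * m + e := by rw [he]; ring
  have hK1 : 0 < K + 1 := by linarith
  by_cases h1 : K + 2 ≤ (e - n1) * (K + 1) + e
  · right
    refine Sur_rows_w (p := 2) (q := 1) (by norm_num) hK0 fun k hk => ?_
    have hkm : k ≤ m := by
      obtain ⟨i, hi⟩ := hk
      rcases hw i with h | h <;> omega
    rw [hS k hkm]
    obtain ⟨Y, hY⟩ : ∃ Y : ℝ, Y = A - (K + (2 : ℕ)) * k := ⟨_, rfl⟩
    obtain ⟨U, hU⟩ : ∃ U : ℤ, U = ⌊(Y - (K + (2 : ℕ))) / (((1 : ℕ) : ℝ) * (K + (2 : ℕ)) - 1)⌋ :=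
      ⟨_, rfl⟩
    rw [← hY, ← hU]
    have e1 : ((1 : ℕ) : ℝ) * (K + (2 : ℕ)) - 1 = K + 1 := by push_cast; ring
    rw [e1] at hU
    have h2 := Int.lt_floor_add_one ((Y - (K + (2 : ℕ))) / (K + 1))
    rw [← hU, div_lt_iff₀ hK1] at h2
    have h3 := Int.lt_floor_add_one Y
    have h4 := mul_lt_mul_of_pos_right h3 hK1
    have h5 : Y * (K + 2) = (M + 4) * (m - k) * (K + 1) + (K + 2) * e := by
      rw [hY, hDm]
      push_cast
      linear_combination ((m : ℝ) - k) * hid
    have h6 : ((((M + 4) * (m - k) + n1 : ℕ) : ℤ) : ℝ) < ((⌊Y⌋ + U + 2 : ℤ) : ℝ) := by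
      push_cast [Nat.cast_sub hkm]
      have h7 : ((M + 4) * ((m : ℝ) - k) + n1) * (K + 1) < ((⌊Y⌋ : ℝ) + U + 2) * (K + 1) := by
        push_cast at h2
        linarith
      exact lt_of_mul_lt_mul_right h7 hK1.le
    have h7 := Int.cast_lt.1 h6
    omega
  push Not at h1
  rcases lt_or_ge e (K + 2) with heK | heK
  · by_cases h2 : 0 ≤ e ∧ (n1 : ℝ) ≤ e
    · exact dich_blk (n1 := (n1 : ℤ)) (M := M) i0 hK0 hK2 hw0 hDm rfl h2.1 heK
        (by push_cast; linarith) (by push_cast; exact h1)
        (by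
          intro k hk
          rw [hS k hk.le]
          push_cast [Nat.cast_sub hk.le]
          ring)
        (fun i => by rcases hw i with h | h <;> omega)
        (by rw [hn1]) (fun _ => by rw [hn1])
    · left
      refine Emp_apex_w (p := 2) (q := 1) (M := M) (by norm_num) hK0 hKq (by rw [hc]) hA0 ?_ ?_
      · rw [hWR, hDm]
        push_cast
        have h3 : (K + 2) * (e - 1) < n1 * (K + 1) := by linarith
        have h4 := mul_lt_mul_of_pos_left h3 (show 0 < K + 2 by linarith)
        have h5 : ((M : ℝ) + 4) * (e - 1) * (K + 1) < ((K + 2) * n1) * (K + 1) := by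
          have e1 : (K + 2) * ((K + 2) * (e - 1)) = (M + 4) * (e - 1) * (K + 1) := by
            linear_combination (e - 1) * hid
          rw [e1] at h4
          linarith
        have h6 := lt_of_mul_lt_mul_right h5 hK1.le
        linarith
      · intro g hg1 hg2
        push_cast at hg1 hg2 ⊢
        rw [hDm] at hg1 hg2 ⊢
        have h3 : (g : ℝ) < m + 1 := by
          by_contra hcon
          push Not at hcon
          have := mul_le_mul_of_nonneg_left hcon (show 0 ≤ K + 2 by linarith)
          linarith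
        have h4 : g < m + 1 := by exact_mod_cast h3
        rcases Nat.lt_or_ge g m with h5 | h5
        · have h6 : ((∑ i, (w i - g) : ℕ) : ℝ) = (M + 4) * ((m : ℝ) - g) + n1 := by
            rw [hS g h5.le]
            push_cast [Nat.cast_sub h5.le]
            ring
          have h7 : (1 : ℝ) ≤ (m : ℝ) - g := by
            have : ((g + 1 : ℕ) : ℝ) ≤ m := by exact_mod_cast h5
            push_cast at this
            linarith
          have h8 : ((M : ℝ) + 4) * 1 ≤ (M + 4) * ((m : ℝ) - g) :=
            mul_le_mul_of_nonneg_left h7 (by linarith)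
          have h9 : (0 : ℝ) ≤ n1 := Nat.cast_nonneg _
          push_cast at h6
          rw [h6]
          linarith
        · have h6 : g = m := by omega
          subst h6
          have h7 : 0 ≤ e := by linarith
          have h8 : e < n1 := by
            by_contra hcon
            push Not at hcon
            exact h2 ⟨h7, hcon⟩
          have h9 : (n1 : ℝ) = ∑ i, ((w i - g : ℕ) : ℝ) := by rw [hn1]; push_cast; rfl
          rw [← h9]
          linarith
  · -- `n1 = M + 3`
    have h3 : n1 = M + 3 := by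
      by_contra hne
      have h2 : n1 ≤ M + 2 := by omega
      have h2R : (n1 : ℝ) ≤ M + 2 := by exact_mod_cast h2
      have h4 : 0 ≤ (e - n1) * (K + 1) := mul_nonneg (by linarith) hK1.le
      linarith
    have h3R : (n1 : ℝ) = M + 3 := by rw [h3]; push_cast; ring
    obtain ⟨i1, hi1⟩ : ∃ i1, w i1 = m + 1 := by
      by_contra hcon
      push Not at hcon
      have : n1 = 0 := by
        rw [hn1]
        refine sum_eq_zero fun i _ => ?_
        rcases hw i with h | h
        · omega
        · exact absurd h (hcon i)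
      omega
    obtain ⟨e2, he2⟩ : ∃ e2 : ℝ, e2 = e - (K + 2) := ⟨_, rfl⟩
    have he20 : 0 ≤ e2 := by rw [he2]; linarith
    have hee : e = e2 + (K + 2) := by rw [he2]; ring
    have he21 : e2 * (K + 2) < 1 := by
      rw [hee, h3R] at h1
      have e1 : (e2 + (K + 2) - (M + 3)) * (K + 1) + (e2 + (K + 2)) = e2 * (K + 2) - 1 + (K + 2) := by
        linear_combination hK2
      rw [e1] at h1
      linarith
    have he22 : e2 * 2 ≤ e2 * (K + 2) := mul_le_mul_of_nonneg_left (by linarith) he20
    refine dich_blk (n1 := -1) (M := M) (e := e2) (e' := e2 + 1) (m := m + 1) (D := A) (K := K) i1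
        hK0 hK2 hi1 (by rw [hDm, hee]; push_cast; ring) (by push_cast; ring) he20
        (by linarith) (by linarith) (by linarith)
        (by
          intro k hk
          have hk' : k ≤ m := by omega
          rw [hS k hk', h3]
          push_cast [Nat.cast_sub hk']
          ring)
        (fun i => by rcases hw i with h | h <;> omega)
        (by
          have : (0 : ℤ) ≤ ((∑ i, (w i - (m + 1)) : ℕ) : ℤ) := Int.natCast_nonneg _
          linarith)
        (by
          rintro ⟨i, hi⟩
          exfalso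
          rcases hw i with h | h <;> omega)

end Pool.Agent.TH864.DP
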